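import Pool.Agent.H92.EHD.TK
import Pool.Agent.H88.EQ.KEY

/-!
# MP_75a732_an, board ehd_modules, row EK2: the key estimate for a fixed level `i1 + l`

Adaptation of `Pool.Agent.H88.EQ.KEYKrow.pf_KEY2K` to the lower Jacobian.
-/

set_option autoImplicit false

namespace Pool.Agent.H85.EHD.EK2row

open Pool.Agent.H92.EQ Pool.Agent.H92.EHD Pool.Agent.H88.EQ.KEYrow
open scoped BigOperators ComplexConjugate ContDiff Topology
open MeasureTheory Filter

noncomputable section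

theorem cls_mono {k p q : ℕ} {K : Set (Fin (k + 1) → ℂ)} {A A' : ℝ} {S : Form (Fin (k + 1)) p}
    (hm : 0 ≤ mass q (om (k + 1) p)) (h : A ≤ A') (hS : Cls K q A S) : Cls K q A' S :=
  ⟨hS.pf, hS.ink, hS.ms, fun δ h1 h2 => (hS.lm δ h1 h2).trans (mul_le_mul_of_nonneg_right h hm)⟩

/-- The inequality behind the key estimate. -/
theorem core (hKB : T_EKB) (_hKA : T_KA) (hKI : T_EKI) (hP1 : T_P1) (hP3 : T_P3) (hP5 : T_P5)
    (hL1 : T_L1) (hL3 : T_L3) (hD12 : T_D12) {k d p q : ℕ}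
    {F : Fin (k + 1) → MvPolynomial (Fin (k + 1)) ℂ} (hk : 0 < k) (hd : 2 ≤ d)
    (hpq : p + q = k) (hFE : IsE d F)
    {CJ : ℝ} (hCJ1 : 1 ≤ CJ) (hCJ : ∀ z, z ≠ 0 → nv (lowP F) (k * (d - 1)) z ≤ CJ)
    (m i : ℕ) {X r h : ℝ} {S : Form (Fin (k + 1)) p} (hX0 : 0 < X) (hr : 0 < r) (hr1 : r ≤ 1)
    (hh : 0 ≤ h) {K : Set (Fin (k + 1) → ℂ)} (hHit : HitL F d K i r h) (hS : ProjForm S)
    (hSK : InK K S)
    (hmass : mass q S = mass q (om (k + 1) p)) :
    X * betaL F d (i + m) i q (Real.exp (-X)) S ≤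
      (X * h + Real.log (1 / r) + (1 / 2) * Real.log (CJ ^ 2 + 1)) *
        mass q (om (k + 1) p) +
      ((k * (d - 1) : ℕ) : ℝ) * (d : ℝ) ^ m *
        (pair (fun z => Gn F d m z - (1 / (d : ℝ) ^ m) * we (lowP F) (k * (d - 1))
            (Real.exp (-X)) (ev (iter F m) z))
          (Sn F d (i + m) S) (fun _ : Fin q => ell) -
        pair (fun z => Gn F d m z - (1 / (d : ℝ) ^ m) * we (lowP F) (k * (d - 1))
            (Real.exp (-X)) (ev (iter F m) z))
          (Sn F d (i + m) S) (fun _ : Fin q => Gn F d (i + m))) := by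
  have hF : IsH d F := hFE.isH
  have hN : p + q + 1 = k + 1 := by omega
  have hN0 : 0 < k + 1 := by omega
  have hd1 : 1 ≤ d := by omega
  have hdr : (0 : ℝ) < d := by exact_mod_cast (by omega : 0 < d)
  set ε : ℝ := Real.exp (-X) with hε
  have hε0 : 0 < ε := Real.exp_pos _
  have hε1 : ε ≤ 1 := by rw [hε]; exact Real.exp_le_one_iff.mpr (by linarith)
  set Mn : ℕ := k * (d - 1) with hMn
  obtain ⟨-, -, -, -, -, -, hwe, -⟩ := hKB k d F hk hd hFE
  obtain ⟨hwPot, hwid⟩ := hwe ε hε0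
  rw [← hMn] at hwPot hwid
  set w : (Fin (k + 1) → ℂ) → ℝ := we (lowP F) Mn ε with hw
  have hit := (hD12 (k + 1) d F hd1 hF 0 m).1
  have hSn : ProjForm (Sn F d (i + m) S) :=
    (hD12 (k + 1) d F hd1 hF 0 (i + m)).2.2.2.2 p S hS
  have hmassn : mass q (Sn F d (i + m) S) = mass q (om (k + 1) p) := by
    rw [((hP5 (k + 1) p q d S hN hS).2.1 F (i + m) hd1 hF), hmass]
  have hellPot : Pot (ell : (Fin (k + 1) → ℂ) → ℝ) := (hL3 (k + 1)).1
  have hell : LH 1 (ell : (Fin (k + 1) → ℂ) → ℝ) :=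
    (hL1 (k + 1) 0 0 0 0 ell ell).2.2.1 hellPot
  have hwLH : LH 1 w := (hL1 (k + 1) 0 0 0 0 w w).2.2.1 hwPot
  -- the function
  let φ0 : (Fin (k + 1) → ℂ) → ℝ := fun z => (Mn : ℝ) * ell z + (-(Mn : ℝ)) * w z
  have hφ0LH : LH ((Mn : ℝ) * 1 + (-(Mn : ℝ)) * 1) φ0 :=
    (hL1 (k + 1) 1 1 Mn (-(Mn : ℝ)) ell w).1 hell hwLH
  have hφ0LH' : LH 0 φ0 := by
    have e : (Mn : ℝ) * 1 + (-(Mn : ℝ)) * 1 = 0 := by ring
    rwa [e] at hφ0LH
  have hφ0 : Hom0 φ0 := (hL1 (k + 1) 0 0 0 0 φ0 φ0).2.1.mpr hφ0LH'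
  have hφ0v : ∀ z, z ≠ 0 → φ0 z = -((1 / 2) * Real.log (nv (lowP F) Mn z ^ 2 + ε ^ 2)) := by
    intro z hz
    have := hwid z hz
    simp only [φ0]
    linarith
  have hFm0 : ∀ z, z ≠ 0 → ev (iter F m) z ≠ 0 := fun z hz h => hz (hit.nd z h)
  have hφm : LH (((d ^ m : ℕ) : ℝ) * 0) (fun z => φ0 (ev (iter F m) z)) :=
    (hL1 (k + 1) 0 0 0 0 φ0 φ0).2.2.2 (d ^ m) (iter F m) hit hφ0LH'
  have hnv0 : ∀ z, 0 ≤ nv (lowP F) Mn z := by
    intro z
    unfold nv nrm
    positivity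
  have hb0 : Real.log 2 ≤ Real.log (CJ ^ 2 + 1) :=
    Real.log_le_log (by norm_num) (by nlinarith)
  -- the scaling
  have hscale : ∀ u : Fin q → (Fin (k + 1) → ℂ) → ℝ,
      pair (fun z => φ0 (ev (iter F m) z)) (Sn F d (i + m) S) u =
      (Mn : ℝ) * (d : ℝ) ^ m * pair (fun z => Gn F d m z - (1 / (d : ℝ) ^ m) *
        w (ev (iter F m) z)) (Sn F d (i + m) S) u := by
    intro u
    rw [← pair_cmul]
    congr 1
    funext z
    simp only [φ0, Gn]
    field_simp
    ring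
  -- integrability
  have hQ := (hP3 (k + 1) p q (Sn F d (i + m) S) (fun _ => ell) hN hSn (fun _ => hellPot)).1
  have hmassn2 : pair (fun _ => 1) (Sn F d (i + m) S) (fun _ : Fin q => ell) =
      mass q (om (k + 1) p) := hmassn
  have hp1 := hP1 (k + 1) p q (Sn F d (i + m) S) (fun _ => ell) (fun _ => 1) hN hSn
    (fun _ => hell)
  have hadm1 : Adm (Sn F d (i + m) S) (fun _ : Fin q => ell) (fun z =>
      Set.indicator (CrL F d ε) (fun _ => (1 : ℝ)) (ev (iter F m) z)) := by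
    refine hp1.1 _ 1 ?_ ?_
    · have hm : MeasurableSet (CrL F d ε) :=
        measurableSet_lt (measurable_nv _ _) measurable_const
      exact (measurable_const.indicator hm).comp (continuous_ev _).measurable
    · intro z _
      by_cases hz : ev (iter F m) z ∈ CrL F d ε
      · rw [Set.indicator_of_mem hz]; simp
      · rw [Set.indicator_of_notMem hz]; simp
  have hadm2 : Adm (Sn F d (i + m) S) (fun _ : Fin q => ell)
      (fun z => φ0 (ev (iter F m) z)) := hp1.2 _ hφm.smooth.continuousOn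
  have hadm3 : Adm (Sn F d (i + m) S) (fun _ : Fin q => ell) (fun _ => (1 : ℝ)) :=
    hp1.2 _ continuousOn_const
  -- Chebyshev
  have hcheb : X * betaL F d (i + m) i q ε S ≤
      pair (fun z => φ0 (ev (iter F m) z)) (Sn F d (i + m) S) (fun _ : Fin q => ell) +
        (1 / 2) * Real.log (CJ ^ 2 + 1) * mass q (om (k + 1) p) := by
    unfold betaL
    rw [Nat.add_sub_cancel_left, ← hmassn2, ← pair_cmul, ← pair_cmul,
      ← pair_add hadm2 (hadm3.cmul _)]
    refine pair_mono hN0 hQ (hadm1.cmul _) (hadm2.add (hadm3.cmul _)) fun z hz => ?_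
    rw [hφ0v _ (hFm0 z hz)]
    have h1 := hCJ _ (hFm0 z hz)
    have h2 := hnv0 (ev (iter F m) z)
    by_cases hz' : ev (iter F m) z ∈ CrL F d ε
    · rw [Set.indicator_of_mem hz']
      have h3 : nv (lowP F) Mn (ev (iter F m) z) < ε := hz'
      have h4 : Real.log (nv (lowP F) Mn (ev (iter F m) z) ^ 2 + ε ^ 2) ≤
          Real.log (2 * ε ^ 2) := by
        refine Real.log_le_log (by positivity) ?_
        nlinarith
      have h5 : Real.log (2 * ε ^ 2) = Real.log 2 - 2 * X := by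
        rw [Real.log_mul (by norm_num) (by positivity), Real.log_pow, hε, Real.log_exp]
        push_cast
        ring
      rw [h5] at h4
      linarith
    · rw [Set.indicator_of_notMem hz']
      have h4 : Real.log (nv (lowP F) Mn (ev (iter F m) z) ^ 2 + ε ^ 2) ≤
          Real.log (CJ ^ 2 + 1) := by
        refine Real.log_le_log (by positivity) ?_
        nlinarith
      linarith
  -- the last term
  have hki : pair (fun z => φ0 (ev (iter F m) z)) (Sn F d (i + m) S)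
      (fun _ : Fin q => Gn F d (i + m)) ≤
      (X * h + Real.log (1 / r)) * mass q (om (k + 1) p) := by
    have hlr : 0 ≤ Real.log (1 / r) := Real.log_nonneg (by
      rw [le_div_iff₀ hr]; linarith)
    refine hKI k d p q m i F K S φ0 h r X (Real.log (1 / r)) hd hpq hFE hS hSK hmass hφ0 hh
      hX0.le hlr hHit ?_ ?_
    · intro z hz
      rw [hφ0v z hz]
      have h4 : Real.log (ε ^ 2) ≤ Real.log (nv (lowP F) Mn z ^ 2 + ε ^ 2) :=
        Real.log_le_log (by positivity) (by nlinarith [hnv0 z])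
      rw [Real.log_pow, hε, Real.log_exp] at h4
      push_cast at h4
      rw [hε]
      linarith
    · intro z hz hz'
      rw [hφ0v z hz]
      have h3 : r ≤ nv (lowP F) Mn z := not_lt.mp hz'
      have h4 : Real.log (r ^ 2) ≤ Real.log (nv (lowP F) Mn z ^ 2 + ε ^ 2) :=
        Real.log_le_log (by positivity) (by nlinarith)
      rw [Real.log_pow] at h4
      push_cast at h4
      have h5 : Real.log (1 / r) = -Real.log r := by rw [one_div, Real.log_inv]
      rw [h5]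
      linarith
  have hs1 := hscale (fun _ : Fin q => ell)
  have hs2 := hscale (fun _ : Fin q => Gn F d (i + m))
  rw [mul_sub, ← hs1, ← hs2]
  have hfin : (X * h + Real.log (1 / r) + 1 / 2 * Real.log (CJ ^ 2 + 1)) *
      mass q (om (k + 1) p) =
      (X * h + Real.log (1 / r)) * mass q (om (k + 1) p) +
      1 / 2 * Real.log (CJ ^ 2 + 1) * mass q (om (k + 1) p) := by ring
  rw [hfin]
  linarith

theorem pf_EK2 (hKA : T_KA) (hKB : T_EKB) (hKE2 : T_KE2) (hKF : T_EKF) (_hMA : T_EMA)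
    (hMB : T_EMB) (hKG : T_KG2)
    (hKH : T_KH) (hKI : T_EKI) (hP1 : T_P1) (hP3 : T_P3) (hP5 : T_P5) (hL1 : T_L1) (hL3 : T_L3)
    (hD7 : T_D7) (hD12 : T_D12) : T_EK2 := by
  intro k d p q F 𝒦 hk hd hpq hFE hSt hConv l δ η hδ hη
  have hF : IsH d F := hFE.isH
  have hN : p + q + 1 = k + 1 := by omega
  have hN0 : 0 < k + 1 := by omega
  have hd1 : 1 ≤ d := by omega
  have hdr : (0 : ℝ) < d := by exact_mod_cast (by omega : 0 < d)
  have hd1r : (1 : ℝ) < d := by exact_mod_cast (by omega : 1 < d)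
  obtain ⟨-, -, hMn1, -, -, ⟨CJ, hCJ1, hCJ⟩, hwe, -⟩ := hKB k d F hk hd hFE
  obtain ⟨hGpot, hGrel, B, hB, hGB, -⟩ := hKA (k + 1) d F hd hF
  have hellPot : Pot (ell : (Fin (k + 1) → ℂ) → ℝ) := (hL3 (k + 1)).1
  set b0 : ℝ := (1 / 2) * Real.log (CJ ^ 2 + 1) with hb0
  have hb0' : 0 ≤ b0 := by
    rw [hb0]
    exact mul_nonneg (by norm_num) (Real.log_nonneg (by nlinarith))
  have hc0 : 0 < mass q (om (k + 1) p) := ((hD7 (k + 1) p).2 q hN).1
  set c0 := mass q (om (k + 1) p) with hc0def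
  have hMnr : (0 : ℝ) < ((k * (d - 1) : ℕ) : ℝ) := by exact_mod_cast hMn1
  have hpow : Tendsto (fun m : ℕ => (d : ℝ) ^ m) atTop atTop :=
    tendsto_pow_atTop_atTop_of_one_lt hd1r
  have hn4 : Tendsto (fun n : ℕ => (n : ℝ) ^ 4) atTop atTop :=
    (tendsto_pow_atTop (by norm_num)).comp tendsto_natCast_atTop_atTop
  -- the bound of the difference
  have hdiff : ∃ a h0 : ℝ, 0 < a ∧ 0 < h0 ∧ ∀ K ∈ 𝒦, ∀ i1 : ℕ, ∃ n0 : ℕ, i1 + l ≤ n0 ∧
      ∀ m, n0 ≤ i1 + l + m → ∀ (h : ℝ) (S : Form (Fin (k + 1)) p), 0 ≤ h → h ≤ h0 →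
      HitL F d K (i1 + l)
        (Real.exp (-((d : ℝ) ^ (i1 + l + m) / ((i1 + l + m : ℕ) : ℝ) ^ 4))) h →
      Cls K q (a * (d : ℝ) ^ (i1 + l + m)) S →
      ((k * (d - 1) : ℕ) : ℝ) * (d : ℝ) ^ m *
        (pair (fun z => Gn F d m z - (1 / (d : ℝ) ^ m) * we (lowP F) (k * (d - 1))
            (Real.exp (-(δ * (d : ℝ) ^ (l + m)))) (ev (iter F m) z))
          (Sn F d (i1 + l + m) S) (fun _ : Fin q => ell) -
        pair (fun z => Gn F d m z - (1 / (d : ℝ) ^ m) * we (lowP F) (k * (d - 1))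
            (Real.exp (-(δ * (d : ℝ) ^ (l + m)))) (ev (iter F m) z))
          (Sn F d (i1 + l + m) S) (fun _ : Fin q => Gn F d (i1 + l + m))) ≤
      η / 2 * (δ * (d : ℝ) ^ (l + m)) * c0 := by
    rcases q with _ | q
    · refine ⟨1, 1, one_pos, one_pos, fun K hK i1 => ⟨i1 + l, le_rfl,
        fun m _ h S _ _ _ _ => ?_⟩⟩
      have e : (fun _ : Fin 0 => (ell : (Fin (k + 1) → ℂ) → ℝ)) =
          fun _ => Gn F d (i1 + l + m) := by
        funext j
        exact j.elim0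
      rw [e, sub_self, mul_zero]
      positivity
    · have hη' : 0 < η / 2 * (δ * (d : ℝ) ^ l) * c0 / (((k * (d - 1) : ℕ) : ℝ) * (q + 1)) := by
        positivity
      obtain ⟨a', ha', hKF'⟩ := hKF k d (p + 1) q F 𝒦 hd (by omega) hFE hConv _ hη'
      obtain ⟨C, hC, hMB'⟩ := hMB k d p q F hd (by omega) hFE
      have hdl : (0 : ℝ) < (d : ℝ) ^ l := by positivity
      refine ⟨a' / 4, a' / (4 * (δ * (d : ℝ) ^ l)), by positivity, by positivity,
        fun K hK i1 => ?_⟩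
      obtain ⟨i, hi⟩ : ∃ i, i = i1 + l := ⟨_, rfl⟩
      rw [← hi]
      have hKi : ev (iter F i) ⁻¹' K ∈ 𝒦 :=
        (hKG (k + 1) d p i F K (fun _ _ _ => 0) (fun _ => 0) hd1 hF
          (fun _ _ _ _ _ => rfl)).2.2 𝒦 hSt hK
      obtain ⟨m0, hm0⟩ := hKF' _ hKi
      have hdi : (0 : ℝ) < (d : ℝ) ^ i := by positivity
      obtain ⟨m1, hm1⟩ := eventually_atTop.1 (hpow.eventually_ge_atTop (4 * C / a'))
      obtain ⟨n1, hn1⟩ := eventually_atTop.1
        ((hn4.eventually_ge_atTop (4 * (d : ℝ) ^ i / a')).and (eventually_ge_atTop 1))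
      refine ⟨max (max m0 m1 + i) n1, by omega, fun m hm h S hh0 hh1 hHit hCl => ?_⟩
      have hm' : m ≥ m0 := by omega
      have hm1' := hm1 m (by omega)
      obtain ⟨hn1', hn1''⟩ := hn1 (i + m) (by omega)
      have hS : ProjForm S := hCl.pf
      have hmass : mass (q + 1) S = c0 := hCl.ms
      have hdm : (0 : ℝ) < (d : ℝ) ^ m := by positivity
      obtain ⟨X, hX⟩ : ∃ X : ℝ, X = δ * (d : ℝ) ^ (l + m) := ⟨_, rfl⟩
      have hX0 : 0 < X := by rw [hX]; positivity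
      rw [← hX]
      obtain ⟨r, hr⟩ : ∃ r : ℝ, r = Real.exp (-((d : ℝ) ^ (i + m) / ((i + m : ℕ) : ℝ) ^ 4)) :=
        ⟨_, rfl⟩
      have hr0 : 0 < r := by rw [hr]; exact Real.exp_pos _
      have hr1 : r ≤ 1 := by
        rw [hr]
        refine Real.exp_le_one_iff.2 ?_
        have : (0 : ℝ) ≤ (d : ℝ) ^ (i + m) / ((i + m : ℕ) : ℝ) ^ 4 := by positivity
        linarith
      have hlr : Real.log (1 / r) = (d : ℝ) ^ (i + m) / ((i + m : ℕ) : ℝ) ^ 4 := by
        rw [one_div, Real.log_inv, hr, Real.log_exp, neg_neg]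
      rw [← hr] at hHit
      set w : (Fin (k + 1) → ℂ) → ℝ := we (lowP F) (k * (d - 1)) (Real.exp (-X)) with hw0
      have hw : Pot w := (hwe (Real.exp (-X)) (Real.exp_pos _)).1
      have hle : Real.log (1 / Real.exp (-X)) = X := by
        rw [one_div, Real.log_inv, Real.log_exp, neg_neg]
      obtain ⟨hCR, hCR'⟩ := hMB' K i (a' / 4 * (d : ℝ) ^ (i + m)) r h (Real.exp (-X)) S
        (by positivity) hh0 hr0 hr1 (Real.exp_pos _) (Real.exp_le_one_iff.2 (by linarith)) hHit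
        hCl
      rw [hle, hlr] at hCR
      have hA1 : a' / 4 * (d : ℝ) ^ (i + m) / (d : ℝ) ^ i = a' / 4 * (d : ℝ) ^ m := by
        rw [pow_add]
        field_simp
      have hA2 : C ≤ a' / 4 * (d : ℝ) ^ m := by
        rw [div_le_iff₀ ha'] at hm1'
        linarith
      have hn0' : (0 : ℝ) < ((i + m : ℕ) : ℝ) ^ 4 := by
        have : (0 : ℝ) < ((i + m : ℕ) : ℝ) := by exact_mod_cast (by omega : 0 < i + m)
        positivity
      have hA3 : (d : ℝ) ^ (i + m) / ((i + m : ℕ) : ℝ) ^ 4 ≤ a' / 4 * (d : ℝ) ^ m := by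
        rw [div_le_iff₀ hn0', pow_add]
        rw [div_le_iff₀ ha'] at hn1'
        have := mul_le_mul_of_nonneg_right hn1' hdm.le
        linarith
      have hA4 : h * X ≤ a' / 4 * (d : ℝ) ^ m := by
        calc h * X ≤ a' / (4 * (δ * (d : ℝ) ^ l)) * X := mul_le_mul_of_nonneg_right hh1 hX0.le
          _ = _ := by
            rw [hX, pow_add]
            field_simp
      have hc1 : 0 ≤ mass q (om (k + 1) (p + 1)) := ((hD7 (k + 1) (p + 1)).2 q (by omega)).1.le
      have hCw : Cls (ev (iter F i) ⁻¹' K) q (a' * (d : ℝ) ^ m)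
          (fun z => wedge (Sn F d i S z) (hessR w z)) :=
        cls_mono hc1 (by rw [hA1]; linarith) hCR
      have hCe : Cls (ev (iter F i) ⁻¹' K) q (a' * (d : ℝ) ^ m)
          (fun z => wedge (Sn F d i S z) (hessR ell z)) := by
        refine cls_mono hc1 ?_ hCR'
        rw [hA1]
        have : 0 ≤ a' / 4 * (d : ℝ) ^ m := by positivity
        linarith
      have hSn : ProjForm (Sn F d (i + m) S) :=
        (hD12 (k + 1) d F hd1 hF 0 (i + m)).2.2.2.2 p S hS
      have hit := (hD12 (k + 1) d F hd1 hF 0 m).1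
      have hWPot : Pot (fun z => (1 / (d : ℝ) ^ m) * w (ev (iter F m) z)) := by
        have := (hL3 (k + 1)).2.2 (d ^ m) (iter F m) _ (Nat.one_le_pow _ _ (by omega)) hit hw
        push_cast at this
        exact this
      have hke := hKE2 (k + 1) p q (Sn F d (i + m) S) _ _ _ _ (by omega) hSn hWPot (hGpot m)
        (hGpot (i + m)) hellPot
      rw [hke]
      -- absorbing
      have hgn : Hom0 (fun z => Gn F d (i + m) z - ell z) := by
        have e1 := (hL1 (k + 1) 0 0 0 0 (Gn F d (i + m)) (Gn F d (i + m))).2.2.1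
          (hGpot (i + m))
        have e2 := (hL1 (k + 1) 0 0 0 0 ell ell).2.2.1 hellPot
        have e3 := (hL1 (k + 1) 1 1 1 (-1) (Gn F d (i + m)) ell).1 e1 e2
        have e4 : (1 : ℝ) * 1 + -1 * 1 = 0 := by norm_num
        rw [e4] at e3
        have e5 : (fun z => 1 * Gn F d (i + m) z + -1 * ell z) =
            fun z => Gn F d (i + m) z - ell z := by
          funext z; ring
        rw [e5] at e3
        exact (hL1 (k + 1) 0 0 0 0 _ (ell)).2.1.mpr e3
      have hterm : ∀ j : Fin (q + 1),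
          pair (fun z => Gn F d (i + m) z - ell z) (Sn F d (i + m) S)
            (Fin.cons (α := fun _ => (Fin (k + 1) → ℂ) → ℝ)
              (fun z => (1 / (d : ℝ) ^ m) * w (ev (iter F m) z))
              (fun k : Fin q => if (k : ℕ) < (j : ℕ) then Gn F d (i + m) else ell)) -
          pair (fun z => Gn F d (i + m) z - ell z) (Sn F d (i + m) S)
            (Fin.cons (α := fun _ => (Fin (k + 1) → ℂ) → ℝ) (Gn F d m)
              (fun k : Fin q => if (k : ℕ) < (j : ℕ) then Gn F d (i + m) else ell)) ≤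
          η / 2 * (δ * (d : ℝ) ^ l) * c0 / (((k * (d - 1) : ℕ) : ℝ) * (q + 1)) := by
        intro j
        have hu : ∀ x : Fin q, Pot (if (x : ℕ) < (j : ℕ) then Gn F d (i + m)
            else (ell : (Fin (k + 1) → ℂ) → ℝ)) := by
          intro x
          split
          · exact hGpot _
          · exact hellPot
        have h1 := (hKH (k + 1) d p q m i F S w _ (fun k : Fin q =>
          if (k : ℕ) < (j : ℕ) then Gn F d (i + m) else ell) hd (by omega) hF hS hw hu hgn).2.2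
        have h2 := (hKH (k + 1) d p q m i F S ell _ (fun k : Fin q =>
          if (k : ℕ) < (j : ℕ) then Gn F d (i + m) else ell) hd (by omega) hF hS hellPot hu
          hgn).2.2
        have e : (fun z => (1 / (d : ℝ) ^ m) * ell (ev (iter F m) z)) = Gn F d m := by
          funext z
          rfl
        rw [e] at h2
        rw [h1, h2]
        have h3 := hm0 m hm' (i + m) (by omega) j _ _ hCw hCe
        exact (abs_le.mp h3).2
      calc ((k * (d - 1) : ℕ) : ℝ) * (d : ℝ) ^ m * _ ≤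
          ((k * (d - 1) : ℕ) : ℝ) * (d : ℝ) ^ m * ∑ _j : Fin (q + 1),
            (η / 2 * (δ * (d : ℝ) ^ l) * c0 / (((k * (d - 1) : ℕ) : ℝ) * (q + 1))) := by
            refine mul_le_mul_of_nonneg_left ?_ (by positivity)
            exact Finset.sum_le_sum fun j _ => hterm j
        _ = η / 2 * X * c0 := by
            rw [Finset.sum_const, Finset.card_univ, Fintype.card_fin, nsmul_eq_mul, hX, pow_add,
              Nat.cast_add, Nat.cast_one]
            have hM0 : ((k * (d - 1) : ℕ) : ℝ) ≠ 0 := hMnr.ne'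
            generalize ((k * (d - 1) : ℕ) : ℝ) = Mr at hM0
            field_simp
  obtain ⟨a, h0, ha, hh0, hdiff⟩ := hdiff
  refine ⟨a, h0, ha, hh0, fun K hK i1 => ?_⟩
  obtain ⟨n0, hin0, hn0⟩ := hdiff K hK i1
  obtain ⟨n1, hn1⟩ := eventually_atTop.1
    ((hn4.eventually_ge_atTop (4 * (d : ℝ) ^ i1 / (δ * η))).and (eventually_ge_atTop 1))
  obtain ⟨n2, hn2⟩ := eventually_atTop.1
    (hpow.eventually_ge_atTop (4 * (d : ℝ) ^ i1 * b0 / (δ * η)))
  refine ⟨max n0 (max n1 n2), by omega, ?_⟩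
  intro n hn h S hh hhh hHit hCl
  obtain ⟨m, rfl⟩ : ∃ m, n = i1 + l + m := ⟨n - (i1 + l), by omega⟩
  have hsub : i1 + l + m - i1 = l + m := by omega
  rw [hsub]
  obtain ⟨hn1', hn1''⟩ := hn1 (i1 + l + m) (by omega)
  have hn2' := hn2 (i1 + l + m) (by omega)
  obtain ⟨X, hX⟩ : ∃ X : ℝ, X = δ * (d : ℝ) ^ (l + m) := ⟨_, rfl⟩
  have hX0 : 0 < X := by rw [hX]; positivity
  have hdif := hn0 m (by omega) h S hh hhh hHit hCl
  rw [← hX] at hdif ⊢
  obtain ⟨r, hr⟩ : ∃ r : ℝ,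
    r = Real.exp (-((d : ℝ) ^ (i1 + l + m) / ((i1 + l + m : ℕ) : ℝ) ^ 4)) := ⟨_, rfl⟩
  have hr0 : 0 < r := by rw [hr]; exact Real.exp_pos _
  have hr1 : r ≤ 1 := by
    rw [hr]
    refine Real.exp_le_one_iff.2 ?_
    have : (0 : ℝ) ≤ (d : ℝ) ^ (i1 + l + m) / ((i1 + l + m : ℕ) : ℝ) ^ 4 := by positivity
    linarith
  have hlr : Real.log (1 / r) = (d : ℝ) ^ (i1 + l + m) / ((i1 + l + m : ℕ) : ℝ) ^ 4 := by
    rw [one_div, Real.log_inv, hr, Real.log_exp, neg_neg]
  rw [← hr] at hHit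
  have hcore := core hKB hKA hKI hP1 hP3 hP5 hL1 hL3 hD12 hk hd hpq hFE hCJ1 hCJ m (i1 + l)
    hX0 hr0 hr1 hh hHit hCl.pf hCl.ink hCl.ms
  set β := betaL F d (i1 + l + m) (i1 + l) q (Real.exp (-X)) S with hβ
  have h1 : X * β ≤ (X * h + Real.log (1 / r) + b0) * c0 + η / 2 * X * c0 :=
    hcore.trans (add_le_add le_rfl hdif)
  have h2 : β ≤ ((X * h + Real.log (1 / r) + b0) * c0 + η / 2 * X * c0) / X := by
    rw [le_div_iff₀ hX0]
    linarith
  refine h2.trans ?_
  have h3 : ((X * h + Real.log (1 / r) + b0) * c0 + η / 2 * X * c0) / X =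
      (h + η / 2 + (Real.log (1 / r) + b0) / X) * c0 := by
    field_simp
    ring
  rw [h3]
  refine mul_le_mul_of_nonneg_right ?_ hc0.le
  have hDn : (d : ℝ) ^ (i1 + l + m) = (d : ℝ) ^ i1 * (d : ℝ) ^ (l + m) := by
    rw [add_assoc, pow_add]
  have hdlm : (0 : ℝ) < (d : ℝ) ^ (l + m) := by positivity
  have hdi1 : (0 : ℝ) < (d : ℝ) ^ i1 := by positivity
  have hnn : (0 : ℝ) < ((i1 + l + m : ℕ) : ℝ) ^ 4 := by
    have : (0 : ℝ) < ((i1 + l + m : ℕ) : ℝ) := by exact_mod_cast (by omega : 0 < i1 + l + m)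
    positivity
  have h4 : Real.log (1 / r) ≤ η / 4 * X := by
    rw [hlr, div_le_iff₀ hnn, hDn, hX]
    rw [div_le_iff₀ (by positivity)] at hn1'
    have h5 := mul_le_mul_of_nonneg_right hn1' hdlm.le
    nlinarith
  have h5 : b0 ≤ η / 4 * X := by
    rw [div_le_iff₀ (by positivity), hDn] at hn2'
    rw [hX]
    have h6 : (d : ℝ) ^ i1 * (4 * b0) ≤ (d : ℝ) ^ i1 * ((d : ℝ) ^ (l + m) * (δ * η)) := by
      linarith
    have h7 := le_of_mul_le_mul_left h6 hdi1
    linarith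
  have h6 : (Real.log (1 / r) + b0) / X ≤ η / 2 := by
    rw [div_le_iff₀ hX0]
    linarith
  linarith

end

end Pool.Agent.H85.EHD.EK2row
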