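import Pool.Agent.H92.EHD.TK
import Pool.Agent.H4.EQ.KO2
import Pool.Agent.H96.EQ.D13

/-!
# MP_75a732_an, board ehd_modules, row EKO: the mean

Adaptation of `Pool.Agent.H4.EQ.pf_KO2` to the group which fixes `z_0`.
-/

set_option autoImplicit false

open scoped BigOperators ComplexConjugate ContDiff ComplexOrder
open MeasureTheory Filter Pool.Agent.H92.EQ Pool.Agent.H92.EHD Pool.Agent.H36.EQ

namespace Pool.Agent.H85.EHD

noncomputable section

/-- the classes grow with `A` -/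
theorem cls_mono {k p q : ℕ} {K : Set (Fin (k + 1) → ℂ)} {A A' : ℝ} {S : Form (Fin (k + 1)) p}
    (hm : 0 ≤ mass q (om (k + 1) p)) (h : A ≤ A') (hS : Cls K q A S) : Cls K q A' S :=
  ⟨hS.pf, hS.ink, hS.ms, fun δ h1 h2 => (hS.lm δ h1 h2).trans (mul_le_mul_of_nonneg_right h hm)⟩

/-- scaling of the matrix does not change the pull-back -/
theorem pull_smul {N p D : ℕ} {Φ : Fin N → MvPolynomial (Fin N) ℂ} (hΦ : IsH D Φ)
    {S : Form (Fin N) p} (hS : ProjForm S) {A : Matrix (Fin N) (Fin N) ℂ} (hA : A.det ≠ 0)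
    {c : ℂ} (hc : c ≠ 0) {z : Fin N → ℂ} (hz : z ≠ 0) :
    pull (cmp (lin (c • A)) Φ) S z = pull (cmp (lin A) Φ) S z := by
  have hy : A.mulVec (ev Φ z) ≠ 0 := by
    intro h
    exact hz (hΦ.nd z (Matrix.eq_zero_of_mulVec_eq_zero hA h))
  have e1 : ev (cmp (lin (c • A)) Φ) z = c • ev (cmp (lin A) Φ) z := by
    rw [Pool.Agent.H96.EQ.ev_cmp, Pool.Agent.H96.EQ.ev_cmp, Pool.Agent.H96.EQ.ev_lin,
      Pool.Agent.H96.EQ.ev_lin, Matrix.smul_mulVec]
  have e2 : jac (cmp (lin (c • A)) Φ) z = c • jac (cmp (lin A) Φ) z := by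
    rw [Pool.Agent.H96.EQ.jac_cmp, Pool.Agent.H96.EQ.jac_cmp, Pool.Agent.H96.EQ.jac_lin,
      Pool.Agent.H96.EQ.jac_lin, Matrix.smul_mul]
  have hy2 : ev (cmp (lin A) Φ) z ≠ 0 := by
    rw [Pool.Agent.H96.EQ.ev_cmp, Pool.Agent.H96.EQ.ev_lin]
    exact hy
  funext I J
  unfold pull
  refine Finset.sum_congr rfl fun I' _ => Finset.sum_congr rfl fun J' _ => ?_
  rw [e1, e2, hS.homog c _ hc hy2]
  have e3 : ∏ l, (c • jac (cmp (lin A) Φ) z) (I' l) (I l) =
      c ^ p * ∏ l, jac (cmp (lin A) Φ) z (I' l) (I l) := by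
    simp only [Matrix.smul_apply, smul_eq_mul]
    rw [Finset.prod_mul_distrib, Finset.prod_const, Finset.card_univ, Fintype.card_fin]
  have e4 : ∏ l, conj ((c • jac (cmp (lin A) Φ) z) (J' l) (J l)) =
      conj c ^ p * ∏ l, conj (jac (cmp (lin A) Φ) z (J' l) (J l)) := by
    simp only [Matrix.smul_apply, smul_eq_mul, map_mul]
    rw [Finset.prod_mul_distrib, Finset.prod_const, Finset.card_univ, Fintype.card_fin]
  rw [e3, e4]
  have e5 : (((‖c‖ ^ (2 * p))⁻¹ : ℝ) : ℂ) * (c ^ p * conj c ^ p) = 1 := by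
    rw [← mul_pow, Complex.mul_conj', ← pow_mul]
    push_cast
    rw [inv_mul_cancel₀]
    exact pow_ne_zero _ (by exact_mod_cast norm_ne_zero_iff.2 hc)
  calc _ = ((((‖c‖ ^ (2 * p))⁻¹ : ℝ) : ℂ) * (c ^ p * conj c ^ p)) *
        (S (ev (cmp (lin A) Φ) z) I' J' * (∏ l, jac (cmp (lin A) Φ) z (I' l) (I l)) *
          ∏ l, conj (jac (cmp (lin A) Φ) z (J' l) (J l))) := by ring
    _ = _ := by rw [e5, one_mul]

theorem am_smul {k p q D : ℕ} {Φ : Fin (k + 1) → MvPolynomial (Fin (k + 1)) ℂ} (hΦ : IsH D Φ)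
    {S : Form (Fin (k + 1)) p} (hS : ProjForm S) (φ : (Fin (k + 1) → ℂ) → ℝ)
    (u : Fin q → (Fin (k + 1) → ℂ) → ℝ)
    {A : Matrix (Fin (k + 1)) (Fin (k + 1)) ℂ} (hA : A.det ≠ 0) {c : ℂ} (hc : c ≠ 0) :
    am φ Φ S u (c • A) = am φ Φ S u A := by
  unfold am pair Iint
  refine integral_congr_ae (ae_restrict_of_ae ?_)
  have h0 : ∀ᵐ z : Fin (k + 1) → ℂ, z ≠ 0 := by
    rw [ae_iff]
    simp
  filter_upwards [h0] with z hz
  unfold Q
  rw [pull_smul hΦ hS hA hc hz]

/-- affine change of the matrix -/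
theorem null_aff {N : ℕ} (P : (Fin N → Fin N → ℂ) → Prop) (hP : ∀ᵐ X : Fin N → Fin N → ℂ, P X)
    (θ : ℝ) (hθ : 0 < θ) :
    ∀ᵐ X : Fin N → Fin N → ℂ, P (1 + (θ : ℂ) • Matrix.of X : Matrix (Fin N) (Fin N) ℂ) := by
  have hH1 : (volume : Measure (Fin N → ℂ)).IsAddHaarMeasure := inferInstance
  have hH2 : (volume : Measure (Fin N → Fin N → ℂ)).IsAddHaarMeasure :=
    Measure.pi.isAddHaarMeasure (fun _ : Fin N => (volume : Measure (Fin N → ℂ)))
  have h1 : volume {Y : Fin N → Fin N → ℂ | ¬ P Y} = 0 := hP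
  have h2 : volume ((fun Y : Fin N → Fin N → ℂ =>
      (fun i j => (1 : Matrix (Fin N) (Fin N) ℂ) i j) + Y) ⁻¹'
      {Y : Fin N → Fin N → ℂ | ¬ P Y}) = 0 := by
    rw [measure_preimage_add]
    exact h1
  have h3 : volume ((fun X : Fin N → Fin N → ℂ => θ • X) ⁻¹'
      ((fun Y : Fin N → Fin N → ℂ => (fun i j => (1 : Matrix (Fin N) (Fin N) ℂ) i j) + Y) ⁻¹'
      {Y : Fin N → Fin N → ℂ | ¬ P Y})) = 0 := by
    rw [Measure.addHaar_preimage_smul volume hθ.ne', h2, mul_zero]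
  refine measure_mono_null ?_ h3
  intro X hX
  have h4 : ((fun i j => (1 : Matrix (Fin N) (Fin N) ℂ) i j) + θ • X :
      Fin N → Fin N → ℂ) = (1 + (θ : ℂ) • Matrix.of X : Matrix (Fin N) (Fin N) ℂ) := by
    funext i j
    simp
  show ¬ P ((fun i j => (1 : Matrix (Fin N) (Fin N) ℂ) i j) + θ • X)
  rw [h4]
  exact hX

theorem e1_zero {k : ℕ} (X : Fin (k + 1) → Fin (k + 1) → ℂ) (j : Fin (k + 1)) :
    e1 X 0 j = if j = 0 then X 0 0 else 0 := by
  show cut 1 X 0 j = _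
  unfold cut row0
  rw [Function.update_self]
  by_cases h : j = 0
  · subst h
    simp
  · have h1 : ¬ (j : ℕ) < 1 := fun h2 => h (Fin.ext (by simpa using h2))
    rw [if_neg h, if_neg h1]

theorem e1_ne {k : ℕ} (X : Fin (k + 1) → Fin (k + 1) → ℂ) {i : Fin (k + 1)} (hi : i ≠ 0)
    (j : Fin (k + 1)) : e1 X i j = X i j := by
  show cut 1 X i j = _
  unfold cut row0
  rw [Function.update_of_ne hi]

theorem det_e1 {k : ℕ} (X : Fin (k + 1) → Fin (k + 1) → ℂ) :
    (e1 X).det = X 0 0 * ((Matrix.of (rep X 0 0 1)).det - (Matrix.of (rep X 0 0 0)).det) := by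
  have h1 : (e1 X).det = X 0 0 * ((Matrix.of X).submatrix Fin.succ Fin.succ).det := by
    rw [Matrix.det_succ_row_zero, Finset.sum_eq_single (0 : Fin (k + 1))]
    · rw [e1_zero, if_pos rfl]
      have h2 : (e1 X).submatrix Fin.succ (Fin.succAbove 0) =
          (Matrix.of X).submatrix Fin.succ Fin.succ := by
        ext i j
        rw [Matrix.submatrix_apply, Matrix.submatrix_apply, e1_ne X (Fin.succ_ne_zero i)]
        simp
      rw [h2]
      simp
    · intro j _ hj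
      rw [e1_zero, if_neg hj]
      ring
    · intro h
      exact absurd (Finset.mem_univ _) h
  have h3 : ∀ t : ℂ, (Matrix.of (rep X 0 0 t)).det =
      t * ((Matrix.of X).submatrix Fin.succ Fin.succ).det +
        ∑ j : Fin k, (-1) ^ ((j.succ : Fin (k + 1)) : ℕ) * X 0 j.succ *
          ((Matrix.of X).submatrix Fin.succ (Fin.succAbove j.succ)).det := by
    intro t
    rw [Matrix.det_succ_row_zero, Fin.sum_univ_succ]
    have hr : ∀ (i : Fin k) (j : Fin (k + 1)), rep X 0 0 t i.succ j = X i.succ j := by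
      intro i j
      unfold rep
      rw [Function.update_of_ne (Fin.succ_ne_zero i)]
    have hs : ∀ f : Fin k → Fin (k + 1), (Matrix.of (rep X 0 0 t)).submatrix Fin.succ f =
        (Matrix.of X).submatrix Fin.succ f := by
      intro f
      ext i j
      simp [hr]
    congr 1
    · rw [hs]
      have h4 : Matrix.of (rep X 0 0 t) 0 0 = t := by
        simp [rep]
      rw [h4]
      simp
  rw [h1, h3, h3]
  ring

theorem ae_e1 (hTH : T_TH) (k : ℕ) : ∀ᵐ X : Fin (k + 1) → Fin (k + 1) → ℂ, (e1 X).det ≠ 0 := by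
  have hH1 : (volume : Measure (Fin (k + 1) → ℂ)).IsAddHaarMeasure := inferInstance
  have hH2 : (volume : Measure (Fin (k + 1) → Fin (k + 1) → ℂ)).IsAddHaarMeasure :=
    Measure.pi.isAddHaarMeasure (fun _ : Fin (k + 1) => (volume : Measure (Fin (k + 1) → ℂ)))
  have h1 : ∀ᵐ X : Fin (k + 1) → Fin (k + 1) → ℂ, X 0 0 ≠ 0 := by
    rw [ae_iff]
    let f : (Fin (k + 1) → Fin (k + 1) → ℂ) →ₗ[ℝ] ℂ :=
      (LinearMap.proj (R := ℝ) (φ := fun _ : Fin (k + 1) => ℂ) 0).comp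
        (LinearMap.proj (R := ℝ) (φ := fun _ : Fin (k + 1) => Fin (k + 1) → ℂ) 0)
    have h2 : LinearMap.ker f ≠ ⊤ := by
      intro h
      have h3 : (fun _ _ => 1 : Fin (k + 1) → Fin (k + 1) → ℂ) ∈ LinearMap.ker f := by
        rw [h]
        trivial
      rw [LinearMap.mem_ker] at h3
      exact one_ne_zero h3
    have h4 := Measure.addHaar_submodule volume (LinearMap.ker f) h2
    refine measure_mono_null ?_ h4
    intro X hX
    exact not_not.1 hX
  filter_upwards [h1, (hTH (k + 1) 0 0).2] with X hX1 hX2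
  rw [det_e1]
  exact mul_ne_zero hX1 hX2

theorem pf_EKO (hEMA : T_EMA) (hKP2 : T_KP2) (hL3 : T_L3) (hL6 : T_L6) (hTH : T_TH) (hTN : T_TN)
    (hIA : T_IA) (hP1 : T_P1)
    (hL1 : T_L1) (hP3 : T_P3) (hP5 : T_P5) (hD7 : T_D7) (hD12 : T_D12) : T_EKO := by
  intro k d p F KK hk hd hp hFE hCs hTG hMG q hq0 φ u hφ hu ε hε
  obtain ⟨N, hN⟩ : ∃ N, N = k + 1 := ⟨_, rfl⟩
  have hF : IsH d F := hFE.isH
  have hq : p + q + 1 = k + 1 := by omega
  have hd1 : 1 ≤ d := by omega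
  have hd0 : (0 : ℝ) < d := by exact_mod_cast hd1
  obtain ⟨B, hB, hBφ⟩ := (hL6 (k + 1)).1 φ hφ.smooth.continuousOn (fun r z hr hz =>
    hφ.hom r z (by exact_mod_cast hr.ne') hz)
  obtain ⟨φ1, hφ1d⟩ : ∃ φ1 : (Fin (k + 1) → ℂ) → ℝ, ∀ z, φ1 z = φ z + B := ⟨_, fun _ => rfl⟩
  have hφ1e : φ1 = fun z => φ z + B := funext hφ1d
  have hφ1 : Hom0 φ1 := by
    refine ⟨?_, fun l z hl hz => ?_⟩
    · rw [hφ1e]
      exact hφ.smooth.add contDiffOn_const
    · rw [hφ1d, hφ1d, hφ.hom l z hl hz]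
  have hφ1n : ∀ z, z ≠ 0 → 0 ≤ φ1 z := by
    intro z hz
    rw [hφ1d]
    linarith [neg_le_of_abs_le (hBφ z hz)]
  have hφ1b : ∀ z, z ≠ 0 → |φ1 z| ≤ 2 * B := by
    intro z hz
    rw [abs_of_nonneg (hφ1n z hz), hφ1d]
    linarith [le_of_abs_le (hBφ z hz)]
  obtain ⟨C, hC0, hPot⟩ := (hL6 (k + 1)).2.2 φ1 hφ1
  have hell : Pot (ell : (Fin (k + 1) → ℂ) → ℝ) := (hL3 (k + 1)).1
  obtain ⟨c, hc, hT⟩ := hTG q
  obtain ⟨c', hc', hMn⟩ := hMG q
  obtain ⟨Ce, hCe, hEm⟩ := hEMA k d p q F hd hq0 hFE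
  obtain ⟨c0, hc0d⟩ : ∃ c0 : ℝ, c0 = mass q (om (k + 1) p) := ⟨_, rfl⟩
  have hc0 : 0 < c0 := by rw [hc0d]; exact ((hD7 (k + 1) p).2 q hq).1
  have hom : ProjForm (om (k + 1) p) := (hD7 (k + 1) p).1
  have hgss : ∫ X : Fin (k + 1) → Fin (k + 1) → ℂ, gss X = 1 :=
    (hIA (k + 1) p (om (k + 1) p) (by omega) hom).1
  have hgi : Integrable (gss : (Fin (k + 1) → Fin (k + 1) → ℂ) → ℝ) := by
    by_contra h
    rw [integral_undef h] at hgss
    exact zero_ne_one hgss
  have hdet := ae_e1 hTH k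
  obtain ⟨Ck, hCk⟩ := hKP2 (k + 1) d p q F φ u hd hq hF hφ hu
  -- the parameters
  obtain ⟨K0, hK0d⟩ : ∃ K0 : ℝ, K0 = C * c * c0 := ⟨_, rfl⟩
  have hK0 : 0 < K0 := by rw [hK0d]; positivity
  obtain ⟨K1, hK1d⟩ : ∃ K1 : ℝ, K1 = C * c' * c0 := ⟨_, rfl⟩
  have hK1 : 0 < K1 := by rw [hK1d]; positivity
  obtain ⟨δ, hδd⟩ : ∃ δ : ℝ, δ = ε / (32 * K0) := ⟨_, rfl⟩
  have hδ : 0 < δ := by rw [hδd]; positivity
  have hδ2 : K0 * (2 * δ) = ε / 16 := by
    rw [hδd]
    field_simp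
    norm_num
  obtain ⟨a1, ha1, hCs1⟩ := hCs q hq0 φ1 u hφ1 hφ1n hu (ε / 16) δ (by positivity) hδ
  obtain ⟨a, had⟩ : ∃ a : ℝ, a = min a1 (ε / (16 * K1)) := ⟨_, rfl⟩
  have ha : 0 < a := by rw [had]; exact lt_min ha1 (by positivity)
  have haK : K1 * a ≤ ε / 16 := by
    have h1 : a ≤ ε / (16 * K1) := by rw [had]; exact min_le_right _ _
    calc K1 * a ≤ K1 * (ε / (16 * K1)) := mul_le_mul_of_nonneg_left h1 hK1.le
      _ = ε / 16 := by field_simp
  refine ⟨a, ha, fun K hK => ?_⟩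
  obtain ⟨i1, n0, hn0, hCst⟩ := hCs1 K hK
  have hsub := tendsto_sub_atTop_nat i1
  have hbt := (bad_tendsto hgi (δ / 2) (by positivity) d hd).comp hsub
  have hev1 : ∀ᶠ n : ℕ in atTop, ∫ X : Fin (k + 1) → Fin (k + 1) → ℂ,
      Set.indicator (bad (k + 1) (Real.exp (δ / 2 * (d : ℝ) ^ (n - i1)))) gss X <
        ε / (64 * B * c0) :=
    hbt.eventually_lt_const (by positivity)
  have hdp : Tendsto (fun n : ℕ => (d : ℝ) ^ (n - i1)) atTop atTop := by
    have h1 : Tendsto (fun n : ℕ => (d : ℝ) ^ n) atTop atTop :=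
      tendsto_pow_atTop_atTop_of_one_lt (by exact_mod_cast (by omega : 1 < d))
    exact h1.comp hsub
  have hev2 : ∀ᶠ n : ℕ in atTop, 16 * K0 / ε ≤ (d : ℝ) ^ (n - i1) :=
    hdp.eventually_ge_atTop _
  have hev3 : ∀ᶠ n : ℕ in atTop, 4 * |Ck| / ε ≤ (d : ℝ) ^ (n - i1) :=
    hdp.eventually_ge_atTop _
  have hev4 : ∀ᶠ n : ℕ in atTop, 16 * (K1 * (1 + Ce)) / ε ≤ (d : ℝ) ^ (n - i1) :=
    hdp.eventually_ge_atTop _
  have hev5 : ∀ᶠ n : ℕ in atTop, 2 * Real.log 4 / δ ≤ (d : ℝ) ^ (n - i1) :=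
    hdp.eventually_ge_atTop _
  obtain ⟨n1, hn1⟩ := eventually_atTop.1
    (hev1.and (hev2.and (hev3.and (hev4.and (hev5.and (eventually_ge_atTop i1))))))
  refine ⟨max n0 n1, fun n hn S hS0 => ?_⟩
  have hnn0 : n0 ≤ n := (le_max_left _ _).trans hn
  obtain ⟨hb1, hb2, hb3, hb4, hb5, hb6⟩ := hn1 n ((le_max_right _ _).trans hn)
  obtain ⟨m, hm⟩ : ∃ m, n = m + i1 := ⟨n - i1, by omega⟩
  have hm' : n - i1 = m := by omega
  rw [hm'] at hb1 hb2 hb3 hb4 hb5
  obtain ⟨D', hD'⟩ : ∃ D' : ℝ, D' = (d : ℝ) ^ (p * m) := ⟨_, rfl⟩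
  have hD'0 : 0 < D' := by rw [hD']; positivity
  have hcast : (((d ^ m : ℕ) : ℝ)) ^ p = D' := by
    rw [hD']
    push_cast
    rw [← pow_mul, mul_comm]
  have hdm0 : (0 : ℝ) < (d : ℝ) ^ m := by positivity
  obtain ⟨θ, hθd⟩ : ∃ θ : ℝ, θ = Real.exp (-(2 * (δ * (d : ℝ) ^ m))) := ⟨_, rfl⟩
  have hθ : 0 < θ := by rw [hθd]; exact Real.exp_pos _
  have hθ1 : θ ≤ 1 := by
    rw [hθd]
    refine Real.exp_le_one_iff.2 ?_
    have : 0 < δ * (d : ℝ) ^ m := by positivity
    linarith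
  have hlog : Real.log (1 / θ) = 2 * (δ * (d : ℝ) ^ m) := by
    rw [one_div, Real.log_inv, hθd, Real.log_exp, neg_neg]
  -- the size of the entries
  obtain ⟨T0, hT0d⟩ : ∃ T0 : ℝ, T0 = Real.exp (δ / 2 * (d : ℝ) ^ m) := ⟨_, rfl⟩
  have hT4 : 4 ≤ T0 := by
    rw [hT0d]
    rw [div_le_iff₀ hδ] at hb5
    have h1 : Real.log 4 ≤ δ / 2 * (d : ℝ) ^ m := by linarith
    calc (4 : ℝ) = Real.exp (Real.log 4) := (Real.exp_log (by norm_num)).symm
      _ ≤ _ := Real.exp_le_exp.2 h1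
  have hT0 : 0 < T0 := by linarith
  have hθT : θ * T0 * T0 = Real.exp (-(δ * (d : ℝ) ^ m)) := by
    rw [hθd, hT0d, ← Real.exp_add, ← Real.exp_add]
    congr 1
    ring
  have hET : Real.exp (-(δ * (d : ℝ) ^ m)) * (T0 * T0) = 1 := by
    rw [hT0d, ← Real.exp_add, ← Real.exp_add]
    have : -(δ * (d : ℝ) ^ m) + (δ / 2 * (d : ℝ) ^ m + δ / 2 * (d : ℝ) ^ m) = 0 := by ring
    rw [this, Real.exp_zero]
  have hΦ : IsH (d ^ m) (iter F m) := (hD12 (k + 1) d F hd1 hF 0 m).1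
  have hdm : 1 ≤ d ^ m := Nat.one_le_pow _ _ hd1
  have hdn : (d : ℝ) ^ n = (d : ℝ) ^ m * (d : ℝ) ^ i1 := by rw [hm, pow_add]
  -- one form
  have key : |pair φ1 (Sn F d n S) u - pair φ1 (Sn F d m (om (k + 1) p)) u| ≤ 6 * (ε / 16) := by
    have hS : ProjForm S := hS0.pf
    have hmS : mass q S = mass q (om (k + 1) p) := hS0.ms
    have hS1 : ProjForm (Sn F d i1 S) := (hD12 (k + 1) d F hd1 hF 0 i1).2.2.2.2 p S hS
    have hmS1 : mass q (Sn F d i1 S) = c0 := by
      rw [((hP5 (k + 1) p q d S hq hS).2.1 F i1 hd1 hF), hmS, hc0d]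
    have hLM : LM q (Sn F d i1 S) (a * (d : ℝ) ^ m + Ce) := by
      have h1 := (hEm K i1 (a * (d : ℝ) ^ n) S (by positivity) hS0).lm
      have h2 : a * (d : ℝ) ^ n / (d : ℝ) ^ i1 = a * (d : ℝ) ^ m := by
        rw [hdn]
        field_simp
      rwa [h2] at h1
    have hSn : ProjForm (Sn F d n S) := (hD12 (k + 1) d F hd1 hF 0 n).2.2.2.2 p S hS
    have hmSn : mass q (Sn F d n S) = c0 := by
      rw [((hP5 (k + 1) p q d S hq hS).2.1 F n hd1 hF), hmS, hc0d]
    obtain ⟨Kn, hKn⟩ : ∃ Kn : ℝ, Kn = D' * pair φ1 (Sn F d n S) u := ⟨_, rfl⟩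
    have hKb : |Kn| ≤ 2 * B * c0 * D' := by
      rw [hKn, abs_mul, abs_of_pos hD'0]
      have h1 := (hP3 (k + 1) p q (Sn F d n S) u hq hSn hu).2.2.2 φ1 (2 * B) hφ1b
      rw [hmSn] at h1
      calc D' * |pair φ1 (Sn F d n S) u| ≤ D' * (2 * B * c0) :=
            mul_le_mul_of_nonneg_left h1 hD'0.le
        _ = _ := by ring
    have hfe : φ1 = fun z => C * ((ell z + φ1 z / C) - ell z) := by
      funext z
      field_simp
      ring
    have ham : ∀ A : Matrix (Fin (k + 1)) (Fin (k + 1)) ℂ,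
        am φ1 (iter F m) (Sn F d i1 S) u A =
        C * am (fun z => (ell z + φ1 z / C) - ell z) (iter F m) (Sn F d i1 S) u A := by
      intro A
      unfold am
      rw [← pair_const]
      exact congrArg (fun f => pair f (pull (cmp (lin A) (iter F m)) (Sn F d i1 S)) u) hfe
    obtain ⟨hI1, hI2, hI3⟩ := hT (d ^ m) (iter F m) hdm hΦ (fun z => ell z + φ1 z / C) ell u
      hPot hell hu (Sn F d i1 S) hS1 θ hθ hθ1
    have hM3 := hMn (d ^ m) (iter F m) hdm hΦ (fun z => ell z + φ1 z / C) ell u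
      hPot hell hu (Sn F d i1 S) (a * (d : ℝ) ^ m + Ce) (by positivity) hS1
      (hmS1.trans hc0d) hLM
    have hJ1 : Integrable (fun X : Fin (k + 1) → Fin (k + 1) → ℂ => gss X *
        am φ1 (iter F m) (Sn F d i1 S) u
          (e1 ((1 + (θ : ℂ) • Matrix.of X : Matrix (Fin (k + 1)) (Fin (k + 1)) ℂ)))) := by
      have h1 := hI1.const_mul C
      have h2 : (fun X : Fin (k + 1) → Fin (k + 1) → ℂ => gss X *
          am φ1 (iter F m) (Sn F d i1 S) u
            (e1 ((1 + (θ : ℂ) • Matrix.of X : Matrix (Fin (k + 1)) (Fin (k + 1)) ℂ)))) =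
          fun X => C * (gss X *
          am (fun z => (ell z + φ1 z / C) - ell z) (iter F m) (Sn F d i1 S) u
            (e1 ((1 + (θ : ℂ) • Matrix.of X : Matrix (Fin (k + 1)) (Fin (k + 1)) ℂ)))) := by
        funext X
        rw [ham]
        ring
      rw [h2]
      exact h1
    obtain ⟨E1, hE1⟩ : ∃ E1 : ℝ, E1 = ∫ X : Fin (k + 1) → Fin (k + 1) → ℂ, gss X *
      am φ1 (iter F m) (Sn F d i1 S) u
        (e1 ((1 + (θ : ℂ) • Matrix.of X : Matrix (Fin (k + 1)) (Fin (k + 1)) ℂ))) := ⟨_, rfl⟩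
    obtain ⟨E2, hE2⟩ : ∃ E2 : ℝ, E2 = ∫ X : Fin (k + 1) → Fin (k + 1) → ℂ, gss X *
      am φ1 (iter F m) (Sn F d i1 S) u (e1 X) := ⟨_, rfl⟩
    have e2 : E2 = C * ∫ X : Fin (k + 1) → Fin (k + 1) → ℂ, gss X *
        am (fun z => (ell z + φ1 z / C) - ell z) (iter F m) (Sn F d i1 S) u (e1 X) := by
      rw [hE2, ← integral_const_mul]
      have h2 : (fun X : Fin (k + 1) → Fin (k + 1) → ℂ => gss X *
          am φ1 (iter F m) (Sn F d i1 S) u (e1 X)) = fun X => C * (gss X *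
          am (fun z => (ell z + φ1 z / C) - ell z) (iter F m) (Sn F d i1 S) u (e1 X)) := by
        funext X
        rw [ham]
        ring
      rw [h2]
    -- step 3
    obtain ⟨Pm, hPm⟩ : ∃ Pm : ℝ, Pm = pair φ1 (pull (iter F m) (om (k + 1) p)) u := ⟨_, rfl⟩
    have h3 : pair φ1 (Sn F d m (om (k + 1) p)) u = D'⁻¹ * Pm := by
      rw [pair_Sn, hD', hPm]
    have h3b : |E2 - Pm| ≤ K1 * (1 + (a * (d : ℝ) ^ m + Ce)) * (D' / (d : ℝ) ^ m) := by
      have e3 : Pm = C * pair (fun z => (ell z + φ1 z / C) - ell z)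
          (pull (iter F m) (om (k + 1) p)) u := by
        rw [hPm, ← pair_const]
        exact congrArg (fun f => pair f (pull (iter F m) (om (k + 1) p)) u) hfe
      rw [e2, e3, ← mul_sub, abs_mul, abs_of_pos hC0]
      refine (mul_le_mul_of_nonneg_left hM3 hC0.le).trans (le_of_eq ?_)
      rw [hcast, ← hc0d, hK1d]
      push_cast
      ring
    -- step 2
    have h2 : |E1 - E2| ≤ K0 * (1 + 2 * (δ * (d : ℝ) ^ m)) * (D' / (d : ℝ) ^ m) := by
      have e1' : E1 = C * ∫ X : Fin (k + 1) → Fin (k + 1) → ℂ, gss X *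
          am (fun z => (ell z + φ1 z / C) - ell z) (iter F m) (Sn F d i1 S) u
            (e1 ((1 + (θ : ℂ) • Matrix.of X : Matrix (Fin (k + 1)) (Fin (k + 1)) ℂ))) := by
        rw [hE1, ← integral_const_mul]
        have h2 : (fun X : Fin (k + 1) → Fin (k + 1) → ℂ => gss X *
            am φ1 (iter F m) (Sn F d i1 S) u
              (e1 ((1 + (θ : ℂ) • Matrix.of X : Matrix (Fin (k + 1)) (Fin (k + 1)) ℂ)))) =
            fun X => C * (gss X *
            am (fun z => (ell z + φ1 z / C) - ell z) (iter F m) (Sn F d i1 S) u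
              (e1 ((1 + (θ : ℂ) • Matrix.of X : Matrix (Fin (k + 1)) (Fin (k + 1)) ℂ)))) := by
          funext X
          rw [ham]
          ring
        rw [h2]
      rw [e1', e2, ← mul_sub, abs_mul, abs_of_pos hC0]
      refine (mul_le_mul_of_nonneg_left hI3 hC0.le).trans (le_of_eq ?_)
      rw [hcast, hlog, hmS1, hK0d]
      push_cast
      ring
    -- step 1
    obtain ⟨Pb, hPb⟩ : ∃ Pb : ℝ, Pb = ∫ X : Fin (k + 1) → Fin (k + 1) → ℂ,
      Set.indicator (bad (k + 1) (Real.exp (δ / 2 * (d : ℝ) ^ m))) gss X := ⟨_, rfl⟩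
    have h1 : |E1 - Kn| ≤ D' * (ε / 16) + 4 * B * c0 * D' * Pb := by
      have e1' : E1 - Kn = ∫ X : Fin (k + 1) → Fin (k + 1) → ℂ, (gss X *
          am φ1 (iter F m) (Sn F d i1 S) u
            (e1 ((1 + (θ : ℂ) • Matrix.of X : Matrix (Fin (k + 1)) (Fin (k + 1)) ℂ))) -
            gss X * Kn) := by
        rw [integral_sub hJ1 (hgi.mul_const Kn), integral_mul_const, hgss, one_mul, hE1]
      have hbi : Integrable (fun X : Fin (k + 1) → Fin (k + 1) → ℂ =>
          Set.indicator (bad (k + 1) (Real.exp (δ / 2 * (d : ℝ) ^ m))) gss X) :=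
        hgi.indicator (bad_open (k + 1) _).measurableSet
      have hg : Integrable (fun X : Fin (k + 1) → Fin (k + 1) → ℂ => gss X * (D' * (ε / 16)) +
          4 * B * c0 * D' *
            Set.indicator (bad (k + 1) (Real.exp (δ / 2 * (d : ℝ) ^ m))) gss X) :=
        (hgi.mul_const _).add (hbi.const_mul _)
      rw [e1', ← Real.norm_eq_abs]
      refine (norm_integral_le_of_norm_le hg ?_).trans (le_of_eq ?_)
      · filter_upwards [null_aff (fun Y => (e1 Y).det ≠ 0) hdet θ hθ] with X hX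
        rw [← mul_sub, norm_mul, Real.norm_eq_abs, Real.norm_eq_abs, abs_of_nonneg (gss_nonneg X)]
        by_cases hXb : X ∈ bad (k + 1) (Real.exp (δ / 2 * (d : ℝ) ^ m))
        · rw [Set.indicator_of_mem hXb]
          have e2' := (hTN (k + 1) p q (d ^ m) (iter F m) (Sn F d i1 S) φ1 u (2 * B) hq hdm hΦ hS1
            hφ1 hu hφ1b).2.1 _ hX
          rw [hcast, hmS1] at e2'
          have e3 : |am φ1 (iter F m) (Sn F d i1 S) u
              (e1 ((1 + (θ : ℂ) • Matrix.of X : Matrix (Fin (k + 1)) (Fin (k + 1)) ℂ))) - Kn| ≤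
              4 * B * c0 * D' := by
            refine (abs_sub _ _).trans ?_
            calc _ ≤ 2 * B * (D' * c0) + 2 * B * c0 * D' := add_le_add e2' hKb
              _ = _ := by ring
          have e4 := mul_le_mul_of_nonneg_left e3 (gss_nonneg X)
          have e5 : 0 ≤ gss X * (D' * (ε / 16)) := mul_nonneg (gss_nonneg X) (by positivity)
          calc _ ≤ gss X * (4 * B * c0 * D') := e4
            _ = 4 * B * c0 * D' * gss X := by ring
            _ ≤ _ := le_add_of_nonneg_left e5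
        · rw [Set.indicator_of_notMem hXb, mul_zero, add_zero]
          refine mul_le_mul_of_nonneg_left ?_ (gss_nonneg X)
          have hXs : ∀ i j, ‖X i j‖ ≤ T0 := by
            intro i j
            by_contra h
            exact hXb ⟨i, j, by rw [← hT0d]; exact not_le.1 h⟩
          obtain ⟨Y, hY⟩ : ∃ Y : Matrix (Fin (k + 1)) (Fin (k + 1)) ℂ,
            Y = 1 + (θ : ℂ) • Matrix.of X := ⟨_, rfl⟩
          have hYa : ∀ i j, Y i j = (1 : Matrix (Fin (k + 1)) (Fin (k + 1)) ℂ) i j +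
              (θ : ℂ) * X i j := by
            intro i j
            rw [hY]
            simp
          rw [← hY] at hX ⊢
          have hθT2 : θ * T0 ≤ 1 / 4 := by
            have h5 : θ * T0 * T0 ≤ 1 := by
              rw [hθT]
              exact Real.exp_le_one_iff.2 (by linarith [mul_pos hδ hdm0])
            nlinarith [mul_pos hθ hT0]
          have hc1 : 1 / 2 ≤ ‖Y 0 0‖ := by
            rw [hYa, Matrix.one_apply_eq]
            have h5 : ‖(θ : ℂ) * X 0 0‖ ≤ 1 / 4 := by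
              rw [norm_mul, Complex.norm_real, Real.norm_eq_abs, abs_of_pos hθ]
              exact (mul_le_mul_of_nonneg_left (hXs 0 0) hθ.le).trans hθT2
            have h6 : ‖(1 : ℂ)‖ ≤ ‖(1 : ℂ) + (θ : ℂ) * X 0 0‖ + ‖(θ : ℂ) * X 0 0‖ := by
              have h7 := norm_sub_le ((1 : ℂ) + (θ : ℂ) * X 0 0) ((θ : ℂ) * X 0 0)
              rwa [add_sub_cancel_right] at h7
            rw [norm_one] at h6
            linarith
          have hc1n : Y 0 0 ≠ 0 := by
            intro h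
            rw [h, norm_zero] at hc1
            norm_num at hc1
          obtain ⟨A, hA⟩ : ∃ A : Matrix (Fin (k + 1)) (Fin (k + 1)) ℂ,
            A = (Y 0 0)⁻¹ • e1 Y := ⟨_, rfl⟩
          have hAam : am φ1 (iter F m) (Sn F d i1 S) u (e1 Y) =
              am φ1 (iter F m) (Sn F d i1 S) u A := by
            rw [hA, am_smul hΦ hS1 φ1 u hX (inv_ne_zero hc1n)]
          have hA0 : ∀ j, A 0 j = (1 : Matrix (Fin (k + 1)) (Fin (k + 1)) ℂ) 0 j := by
            intro j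
            rw [hA, Matrix.smul_apply, e1_zero Y j, smul_eq_mul]
            by_cases hj : j = 0
            · rw [if_pos hj, hj, Matrix.one_apply_eq, inv_mul_cancel₀ hc1n]
            · rw [if_neg hj, mul_zero, Matrix.one_apply_ne (Ne.symm hj)]
          have e2' : ∀ i j, ‖A i j - (1 : Matrix (Fin (k + 1)) (Fin (k + 1)) ℂ) i j‖ ≤
              Real.exp (-(δ * (d : ℝ) ^ m)) := by
            intro i j
            by_cases hi : i = 0
            · rw [hi, hA0, sub_self, norm_zero]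
              exact (Real.exp_pos _).le
            · obtain ⟨o, ho⟩ : ∃ o : ℂ, o = (1 : Matrix (Fin (k + 1)) (Fin (k + 1)) ℂ) i j :=
                ⟨_, rfl⟩
              have ho1 : ‖o‖ ≤ 1 := by
                rw [ho, Matrix.one_apply]
                split_ifs
                · rw [norm_one]
                · rw [norm_zero]
                  norm_num
              have e3 : A i j - o = (Y 0 0)⁻¹ * ((θ : ℂ) * (X i j - X 0 0 * o)) := by
                rw [hA, Matrix.smul_apply, e1_ne Y hi, smul_eq_mul, hYa i j, ← ho]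
                have e4 : Y 0 0 = 1 + (θ : ℂ) * X 0 0 := by
                  rw [hYa, Matrix.one_apply_eq]
                have e5 : (Y 0 0)⁻¹ * Y 0 0 = 1 := inv_mul_cancel₀ hc1n
                calc (Y 0 0)⁻¹ * (o + (θ : ℂ) * X i j) - o =
                    (Y 0 0)⁻¹ * (o + (θ : ℂ) * X i j) - ((Y 0 0)⁻¹ * Y 0 0) * o := by
                      rw [e5, one_mul]
                  _ = (Y 0 0)⁻¹ * (o + (θ : ℂ) * X i j - Y 0 0 * o) := by ring
                  _ = _ := by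
                      rw [e4]
                      ring
              rw [← ho, e3, norm_mul, norm_mul, norm_inv, Complex.norm_real, Real.norm_eq_abs,
                abs_of_pos hθ]
              have e6 : ‖Y 0 0‖⁻¹ ≤ 2 := by
                rw [inv_le_comm₀ (by linarith) (by norm_num)]
                linarith
              have e7 : ‖X i j - X 0 0 * o‖ ≤ 2 * T0 := by
                refine (norm_sub_le _ _).trans ?_
                rw [norm_mul]
                have := mul_le_mul (hXs 0 0) ho1 (norm_nonneg _) hT0.le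
                linarith [hXs i j]
              calc ‖Y 0 0‖⁻¹ * (θ * ‖X i j - X 0 0 * o‖) ≤ 2 * (θ * (2 * T0)) :=
                    mul_le_mul e6 (mul_le_mul_of_nonneg_left e7 hθ.le) (by positivity)
                      (by norm_num)
                _ = θ * T0 * 4 := by ring
                _ ≤ θ * T0 * T0 := mul_le_mul_of_nonneg_left hT4 (by positivity)
                _ = _ := hθT
          have hSa : Cls K q (a1 * (d : ℝ) ^ n) S := by
            refine cls_mono (hc0d ▸ hc0.le) ?_ hS0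
            exact mul_le_mul_of_nonneg_right (by rw [had]; exact min_le_left _ _) (by positivity)
          have e5 := hCst n hnn0 S hSa A hA0 (by rw [hm']; exact e2')
          rw [hm', ← hD', ← hKn] at e5
          rw [hAam]
          calc _ ≤ ε / 16 * D' := e5
            _ = _ := by ring
      · rw [integral_add (hgi.mul_const _) (hbi.const_mul _), integral_mul_const,
          integral_const_mul, hgss, one_mul, hPb]
    -- conclusion
    have h5 : pair φ1 (Sn F d n S) u = D'⁻¹ * Kn := by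
      rw [hKn, ← mul_assoc, inv_mul_cancel₀ hD'0.ne', one_mul]
    rw [h5, h3, ← mul_sub, abs_mul, abs_of_pos (inv_pos.2 hD'0)]
    have h6 : |Kn - Pm| ≤ D' * (ε / 16) + 4 * B * c0 * D' * Pb +
        K0 * (1 + 2 * (δ * (d : ℝ) ^ m)) * (D' / (d : ℝ) ^ m) +
        K1 * (1 + (a * (d : ℝ) ^ m + Ce)) * (D' / (d : ℝ) ^ m) := by
      have h7 : Kn - Pm = (E1 - E2) - (E1 - Kn) + (E2 - Pm) := by ring
      rw [h7]
      refine (abs_add_le _ _).trans ?_
      have h8 := abs_sub (E1 - E2) (E1 - Kn)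
      linarith
    have h8 : K0 * (1 + 2 * (δ * (d : ℝ) ^ m)) * (D' / (d : ℝ) ^ m) =
        D' * (K0 / (d : ℝ) ^ m + ε / 16) := by
      rw [← hδ2]
      field_simp
    have h8b : K1 * (1 + (a * (d : ℝ) ^ m + Ce)) * (D' / (d : ℝ) ^ m) =
        D' * (K1 * (1 + Ce) / (d : ℝ) ^ m + K1 * a) := by
      field_simp
      ring
    have h9 : K0 / (d : ℝ) ^ m ≤ ε / 16 := by
      rw [div_le_iff₀ hdm0]
      rw [div_le_iff₀ hε] at hb2
      linarith
    have h9b : K1 * (1 + Ce) / (d : ℝ) ^ m ≤ ε / 16 := by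
      rw [div_le_iff₀ hdm0]
      rw [div_le_iff₀ hε] at hb4
      linarith
    have h10 : 4 * B * c0 * Pb ≤ ε / 16 := by
      have h11 : Pb ≤ ε / (64 * B * c0) := by rw [hPb]; exact hb1.le
      calc 4 * B * c0 * Pb ≤ 4 * B * c0 * (ε / (64 * B * c0)) :=
            mul_le_mul_of_nonneg_left h11 (by positivity)
        _ = ε / 16 := by
            field_simp
            norm_num
    have h12 : |Kn - Pm| ≤ D' * (6 * (ε / 16)) := by
      refine h6.trans ?_
      rw [h8, h8b]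
      have h13 : D' * (4 * B * c0 * Pb) ≤ D' * (ε / 16) := mul_le_mul_of_nonneg_left h10 hD'0.le
      have h14 : D' * (K0 / (d : ℝ) ^ m) ≤ D' * (ε / 16) := mul_le_mul_of_nonneg_left h9 hD'0.le
      have h15 : D' * (K1 * (1 + Ce) / (d : ℝ) ^ m) ≤ D' * (ε / 16) :=
        mul_le_mul_of_nonneg_left h9b hD'0.le
      have h16 : D' * (K1 * a) ≤ D' * (ε / 16) := mul_le_mul_of_nonneg_left haK hD'0.le
      linarith
    calc D'⁻¹ * |Kn - Pm| ≤ D'⁻¹ * (D' * (6 * (ε / 16))) :=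
          mul_le_mul_of_nonneg_left h12 (inv_pos.2 hD'0).le
      _ = 6 * (ε / 16) := by rw [← mul_assoc, inv_mul_cancel₀ hD'0.ne', one_mul]
  -- from `φ1` to `φ`
  have hdiff : ∀ (n : ℕ) (S : Form (Fin (k + 1)) p), ProjForm S →
      mass q S = mass q (om (k + 1) p) →
      pair φ1 (Sn F d n S) u = pair φ (Sn F d n S) u + B * c0 := by
    intro n S hS hmS
    have hSn : ProjForm (Sn F d n S) := (hD12 (k + 1) d F hd1 hF 0 n).2.2.2.2 p S hS
    have hmSn : mass q (Sn F d n S) = c0 := by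
      rw [((hP5 (k + 1) p q d S hq hS).2.1 F n hd1 hF), hmS, hc0d]
    have hLH : ∀ j, LH (1 : ℝ) (u j) := fun j => (hL1 (k + 1) 0 0 0 0 (u j) (u j)).2.2.1 (hu j)
    have hint := (hP1 (k + 1) p q (Sn F d n S) u (fun _ => 1) hq hSn hLH).2
    have i1' := hint φ hφ.smooth.continuousOn
    have i2' := hint (fun _ => 1) continuousOn_const
    have h1 := (hP3 (k + 1) p q (Sn F d n S) u hq hSn hu).2.2.1
    rw [hmSn] at h1
    rw [← h1, ← pair_const, hφ1e]
    unfold pair Iint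
    have i3' : IntegrableOn
        (fun z => B * (fun _ : Fin (k + 1) → ℂ => (1 : ℝ)) z * Q (Sn F d n S) u z)
        {z : Fin (k + 1) → ℂ | 0 ≤ ell z ∧ ell z < 1} := by
      have h2 : (fun z => B * (fun _ : Fin (k + 1) → ℂ => (1 : ℝ)) z * Q (Sn F d n S) u z) =
          fun z => B * ((fun _ : Fin (k + 1) → ℂ => (1 : ℝ)) z * Q (Sn F d n S) u z) :=
        funext fun z => mul_assoc _ _ _
      rw [h2]
      exact i2'.const_mul B
    rw [← integral_add i1' i3']
    have h3 : (fun z => (φ z + B) * Q (Sn F d n S) u z) = fun z => φ z * Q (Sn F d n S) u z +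
        B * (fun _ : Fin (k + 1) → ℂ => (1 : ℝ)) z * Q (Sn F d n S) u z := by
      funext z
      ring
    rw [h3]
  have k2 := hCk m n (by omega)
  have k4 : Ck / (d : ℝ) ^ m ≤ ε / 4 := by
    rw [div_le_iff₀ hdm0]
    rw [div_le_iff₀ hε] at hb3
    linarith [le_abs_self Ck]
  have k3 : pair φ (Sn F d n S) u - pair φ (Sn F d n (om (k + 1) p)) u =
      (pair φ1 (Sn F d n S) u - pair φ1 (Sn F d m (om (k + 1) p)) u) -
      (pair φ (Sn F d n (om (k + 1) p)) u - pair φ (Sn F d m (om (k + 1) p)) u) := by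
    rw [hdiff n S hS0.pf hS0.ms, hdiff m (om (k + 1) p) hom rfl]
    ring
  rw [k3]
  calc _ ≤ _ := abs_sub _ _
    _ ≤ 6 * (ε / 16) + ε / 4 := add_le_add key (k2.trans k4)
    _ < ε := by linarith

end

end Pool.Agent.H85.EHD
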